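import Mathlib
import Pool.Agent.H534.NW.IterW
import Pool.Agent.H534.NW.ExpD

/-!
# Primes `p` with `4 p + 1` prime or a product of at most three primes, and with almost primes at arbitrary
# times of the sequence `p, 4 p + 1, 16 p + 5, ...`, at all the places of every narrow shape

Let `T n = 4 n + 1`.  For every shape `b_1, ..., b_k` (no exceptions) and a positive proportion of the multiples
`D = W d`, `d ≤ X`, of a small modulus `W` which depends on the shape, for all `X` between a power of `log x` and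
`(x / (W b_j)) ^ (1 / 3)`, there are many `p` for which all the `k + 1` numbers `p' = p, p + D b_1, ..., p + D b_k`
are primes and all `4 p' + 1` have at most three prime factors.  This is true inside every subset of these primes of
positive relative density, and also for the iterates `T^[t_i] p'` at arbitrary times with `4 ^ t_i ≤ x ^ E`, so they
may grow like a multiple of `log x` (almost primes, with constants which do not depend on the times; the only local
obstruction is the one modulo three); it is true inside every dense set of integers with rough values, hence also for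
the primes `p` with `4 p + 1` prime if there are as many of them as expected; and for whole strings of consecutive
primes in windows which are longer than any constant.

The modulus `W = WS σ b x` is the product of the primes `p ≤ (log x) ^ (1 - σ)` such that `p ≤ log log x` or two
of the numbers `0, b_1, ..., b_k` are congruent modulo `p`; it is always `x ^ o(1)`, and for fixed `b` a bounded
power of `log x`.

Proof.  The relative multidimensional Szemerédi theorem for shapes of polynomial size and narrow differences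
(`Pool.Agent.H534.NW`), uniform in systems of linear forms with coefficients up to a power of `x`, and the lower
bounds for primes with almost prime companions of the library, uniform in the linear forms (a weighted sieve, a
sieve, and a Maynard-Tao theorem).
-/

set_option autoImplicit false

open Finset Filter

namespace Pool.Agent.Results.MP_3df474_nt.EveryShapeOfIterates

open Pool.Agent.H534.NW (WS Shapes ShapesV)

/-- the map of the problem -/
def T (n : ℕ) : ℕ := 4 * n + 1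

/-- there is no local obstruction modulo three (there never is one modulo the other primes) -/
def Adm {l : ℕ} (t : Fin l → ℕ) : Prop := ∃ n : ℕ, ¬ 3 ∣ n ∧ ∀ i, ¬ 3 ∣ n + t i

open Classical in
/-- the number of the residue classes of `n` modulo `q` for which `q` divides `n` or one of the `T^[t i] n` -/
noncomputable def w {l : ℕ} (t : Fin l → ℕ) (q : ℕ) : ℕ := ((range q).filter (fun n => q ∣ n ∨ ∃ i, q ∣ T^[t i] n)).card

/-- the product of the `1 - w(q) / q` over the primes `q ≤ z` -/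
noncomputable def V {l : ℕ} (t : Fin l → ℕ) (z : ℕ) : ℝ :=
  ∏ q ∈ (Icc 1 z).filter Nat.Prime, (1 - (w t q : ℝ) / q)

/-- All prime factors of `n` are larger than `y`. -/
def Rough (y : ℝ) (n : ℕ) : Prop := ∀ q : ℕ, q.Prime → q ∣ n → y < (q : ℝ)

open Classical in
/-- the primes `p` of `(x, 2 x]` for which all `T^[t_i] p` have at most `R` prime factors, all larger than `y` -/
noncomputable def AlmostPrimes {l : ℕ} (t : Fin l → ℕ) (R : ℕ) (y : ℝ) (x : ℕ) : Finset ℕ :=
  (Ioc x (2 * x)).filter (fun p => p.Prime ∧ ∀ i, (T^[t i] p).primeFactorsList.length ≤ R ∧ Rough y (T^[t i] p))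

open Pool.Agent.H534.RT (ia ib be be_succ be_le LAdm LV LP)

lemma T_int (t n : ℕ) : 1 ≤ T^[t + 1] n ∧ ((T^[t] n : ℕ) : ℤ) = ((4 ^ t : ℕ) : ℤ) * n + 1 * (be 4 t : ℕ) := by
  constructor
  · rw [Function.iterate_succ_apply']
    unfold T
    omega
  · induction t with
    | zero => simp [be]
    | succ t ih =>
      rw [Function.iterate_succ_apply', T]
      push_cast at ih ⊢
      rw [ih, be_succ]
      push_cast
      ring

lemma T_eq {l : ℕ} (t : Fin l → ℕ) (n : ℕ) (i : Fin l) :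
    (ia 4 t i : ℤ) * n + ib 4 1 t i = ((T^[t i] n : ℕ) : ℤ) := by
  unfold ia ib
  rw [← (T_int (t i) n).2]

lemma T_dvd {l : ℕ} (t : Fin l → ℕ) (n : ℕ) (q : ℕ) (i : Fin l) :
    (q : ℤ) ∣ (ia 4 t i : ℤ) * n + ib 4 1 t i ↔ q ∣ T^[t i] n := by
  rw [T_eq, Int.natCast_dvd_natCast]

lemma T_pos (t n : ℕ) (hn : 1 ≤ n) : 0 < T^[t] n := by
  cases t with
  | zero => exact hn
  | succ t => exact (T_int t n).1

lemma T_le (t n : ℕ) (hn : 1 ≤ n) : T^[t] n + 1 ≤ 4 ^ t * (2 * n) := by
  have h : ∀ t, 3 * T^[t] n + 1 = 4 ^ t * (3 * n + 1) := by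
    intro t
    induction t with
    | zero => simp
    | succ t ih =>
      rw [Function.iterate_succ_apply', T, pow_succ]
      linarith
  have h1 := h t
  have h2 : 1 ≤ 4 ^ t := Nat.one_le_pow _ _ (by norm_num)
  nlinarith

lemma T_mod3 (t n : ℕ) : T^[t] n % 3 = (n + t) % 3 := by
  induction t with
  | zero => simp
  | succ t ih =>
    rw [Function.iterate_succ_apply', T]
    omega

lemma T_fix (p m : ℕ) (hm : p ∣ 3 * m + 1) (t : ℕ) : p ∣ 3 * T^[t] m + 1 := by
  induction t with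
  | zero => exact hm
  | succ t ih =>
    rw [Function.iterate_succ_apply', T]
    have : 3 * (4 * T^[t] m + 1) + 1 = 4 * (3 * T^[t] m + 1) := by ring
    rw [this]
    exact ih.mul_left 4

lemma ladm {l : ℕ} (t : Fin l → ℕ) (ht : Adm t) : LAdm (ia 4 t) (ib 4 1 t) := by
  intro p hp
  by_cases h3 : p = 3
  · subst h3
    obtain ⟨n, h1, h2⟩ := ht
    refine ⟨n, h1, fun j h => ?_⟩
    rw [T_dvd] at h
    have h4 := T_mod3 (t j) n
    exact h2 j (Nat.dvd_of_mod_eq_zero (by rw [← h4]; exact Nat.mod_eq_zero_of_dvd h))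
  · have h4 : p * p % 3 = 1 := by
      have h5 : p % 3 ≠ 0 := fun h =>
        h3 ((Nat.prime_dvd_prime_iff_eq Nat.prime_three hp).1 (Nat.dvd_of_mod_eq_zero h)).symm
      have h6 : p % 3 = 1 ∨ p % 3 = 2 := by omega
      rcases h6 with h6 | h6 <;> simp [Nat.mul_mod, h6]
    have h5 : 3 * ((p * p) / 3) + 1 = p * p := by omega
    have hnot : ∀ m : ℕ, p ∣ 3 * m + 1 → ¬ p ∣ m := by
      intro m h6 h7
      have h8 : p ∣ 1 := (Nat.dvd_add_right (h7.mul_left 3)).1 h6
      exact hp.one_lt.ne' (Nat.dvd_one.1 h8)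
    have h6 : p ∣ 3 * ((p * p) / 3) + 1 := by rw [h5]; exact dvd_mul_right _ _
    refine ⟨p * p / 3, hnot _ h6, fun j h => ?_⟩
    rw [T_dvd] at h
    exact hnot _ (T_fix p _ h6 (t j)) h

lemma V_eq {l : ℕ} (t : Fin l → ℕ) (z : ℕ) : LV (ia 4 t) (ib 4 1 t) z = V t z := by
  classical
  unfold LV V w
  apply prod_congr rfl
  intro p _
  have e : ((range p).filter (fun n : ℕ => p ∣ n ∨ ∃ j, (p : ℤ) ∣ (ia 4 t j : ℤ) * n + ib 4 1 t j)).card =
      ((range p).filter (fun n => p ∣ n ∨ ∃ i, p ∣ T^[t i] n)).card := by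
    apply congrArg
    ext n
    simp only [mem_filter, T_dvd]
  rw [e]

/-- **All times, every narrow shape.** Let `k ≥ 1`, `κ > 0` and `T n = 4 n + 1`.  The constants `c > 0`,
`0 < σ ≤ 1 / 2` and `L` do not depend on the times `t_1, ..., t_l` with the property `Adm`, where
`4 ^ t_i ≤ H ^ E` (or `x ^ E`), nor on the sets.  `ShapesV k v c σ L H A` means: for all `X ≥ (log H) ^ L` and ALL
distinct `b_1, ..., b_k ≥ 1` with `b_j W X ^ 3 ≤ H`, where `W = WS σ b H`, at least `c X` of the `d ≤ X` are such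
that with `D = W d` at least `c H v ^ (k + 1)` elements `n` of `A` have `n + D b_1, ..., n + D b_k` in `A`.
`Shapes k s c σ L H A` is the same with `H / (log H) ^ (s (k + 1))` in place of `H v ^ (k + 1)`.
(1) For every interval `(Y, Y + H]`, `Y ≤ H ^ E`, every set `A` of at least `κ H V(H)` integers `n` of it such
that `n` and the `T^[t_i] n` have no prime factor `≤ H ^ η` has the property `ShapesV k V(H) c σ L H`.
(2) For large `r` and large `x` every subset `A` of relative density `≥ κ` of the set of the primes `p` of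
`(x, 2 x]` for which all `T^[t_i] p` have at most `(E + 3) r` prime factors, all larger than `x ^ (1 / r)`, has the
property `ShapesV k V(x) c σ L x`.
(3) For every `m` there are `η > 0`, `B` and `K` such that for large `x` and all distinct times `t_i ≥ 1` with
`4 ^ t_i ≤ x ^ E` there are a set `P` of at least `m` of the integers `1, ..., K` and a set `S` of integers `n` of
`(x / 2, 3 x / 2]` such that the primes in `(n, n + log x / (log log x) ^ 2]` are the integers `p = n + u`,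
`u ∈ P`, and for all of them all prime factors of all `T^[t_i] p` are larger than `x ^ η`, for all `n ∈ S`, and
every subset of `S` of relative density `≥ κ` has the property `Shapes k B c σ L x`.
(4) For the problem itself (`l = 1`, `t_1 = 1`) every subset of relative density `≥ κ` of the set of the primes
`p` of `(x, 2 x]` for which `4 p + 1` has at most three prime factors, all larger than `x ^ (1 / 5)`, has the
property `Shapes k 2 c σ L x`. -/
theorem result (l : ℕ) :
    (∀ (k E : ℕ) (η κ : ℝ), 1 ≤ k → 0 < η → 0 < κ → ∃ c σ : ℝ, 0 < c ∧ 0 < σ ∧ σ ≤ 1 / 2 ∧ ∃ L H₀ : ℕ,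
      ∀ (H Y : ℕ) (t : Fin l → ℕ) (A : Finset ℕ), H₀ ≤ H → Adm t → (∀ i, 4 ^ t i ≤ H ^ E) → Y ≤ H ^ E →
      A ⊆ Ioc Y (Y + H) →
      (∀ n ∈ A, Rough ((H : ℝ) ^ η) n ∧ ∀ i, Rough ((H : ℝ) ^ η) (T^[t i] n)) → κ * (H * V t H) ≤ A.card →
      ShapesV k (V t H) c σ L H A) ∧
    (∀ E : ℕ, ∃ r₀ : ℕ, 2 ≤ r₀ ∧ ∀ r : ℕ, r₀ ≤ r → ∀ (k : ℕ) (κ : ℝ), 1 ≤ k → 0 < κ →
      ∃ c σ : ℝ, 0 < c ∧ 0 < σ ∧ σ ≤ 1 / 2 ∧ ∃ L : ℕ, ∀ᶠ x : ℕ in atTop,
      ∀ t : Fin l → ℕ, Adm t → (∀ i, 4 ^ t i ≤ x ^ E) →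
      ∀ A ⊆ AlmostPrimes t ((E + 3) * r) ((x : ℝ) ^ (1 / (r : ℝ))) x,
      κ * ((AlmostPrimes t ((E + 3) * r) ((x : ℝ) ^ (1 / (r : ℝ))) x).card : ℝ) ≤ A.card →
      ShapesV k (V t x) c σ L x A) ∧
    (∀ m : ℕ, ∃ η : ℝ, 0 < η ∧ ∃ B K : ℕ, ∀ (k E : ℕ) (κ : ℝ), 1 ≤ k → 0 < κ →
      ∃ c σ : ℝ, 0 < c ∧ 0 < σ ∧ σ ≤ 1 / 2 ∧ ∃ L x₀ : ℕ, ∀ x : ℕ, x₀ ≤ x →
      ∀ t : Fin l → ℕ, Adm t → Function.Injective t → (∀ i, 1 ≤ t i ∧ 4 ^ t i ≤ x ^ E) →
      ∃ P S : Finset ℕ, P ⊆ Icc 1 K ∧ m ≤ P.card ∧ S ⊆ Ioc (x / 2) (x / 2 + x) ∧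
      (∀ n ∈ S, (∀ u : ℕ, 1 ≤ u → (u : ℝ) ≤ Real.log x / Real.log (Real.log x) ^ 2 → ((n + u).Prime ↔ u ∈ P)) ∧
        ∀ u ∈ P, (n + u).Prime ∧ ∀ i, Rough ((x : ℝ) ^ η) (T^[t i] (n + u))) ∧
      ∀ A ⊆ S, κ * (S.card : ℝ) ≤ A.card → Shapes k B c σ L x A) ∧
    (∀ (k : ℕ) (κ : ℝ), 1 ≤ k → 0 < κ → ∃ c σ : ℝ, 0 < c ∧ 0 < σ ∧ σ ≤ 1 / 2 ∧ ∃ L : ℕ, ∀ᶠ x : ℕ in atTop,
      ∀ A ⊆ AlmostPrimes (fun _ : Fin 1 => 1) 3 ((x : ℝ) ^ (1 / (5 : ℝ))) x,
      κ * ((AlmostPrimes (fun _ : Fin 1 => 1) 3 ((x : ℝ) ^ (1 / (5 : ℝ))) x).card : ℝ) ≤ A.card →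
      Shapes k 2 c σ L x A) := by
  classical
  refine ⟨fun k E η κ hk hη hκ => ?_, fun E => ?_, fun m => ?_, fun k κ hk hκ => ?_⟩
  · obtain ⟨c, σm, hc, hσm, hσm2, hm⟩ := Pool.Agent.H534.NW.itAW l E k η κ hk hη hκ 4 (by norm_num) 1
    obtain ⟨L, H₀, hm⟩ := hm σm hσm le_rfl
    refine ⟨c, σm, hc, hσm, hσm2, L, H₀, fun H Y t A hH hadm ht hY hA hAr hAc => ?_⟩
    have h0 := hm H Y t A hH (ladm t hadm) ht hY
      (fun n hn j => by
        have hn1 : 1 ≤ n := by
          have := (mem_Ioc.1 hn).1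
          omega
        rw [T_eq]
        have := T_pos (t j) n hn1
        omega) hA
      (fun n hn p hp hpH => by
        obtain ⟨h1, h2⟩ := hAr n hn
        refine ⟨fun hd => ?_, fun j hd => ?_⟩
        · have := h1 p hp hd
          linarith
        · have := h2 j p hp ((T_dvd t n p j).1 hd)
          linarith)
      (by rw [V_eq]; exact hAc)
    rw [V_eq] at h0
    exact h0
  · obtain ⟨r₀, hr₀, hm⟩ := Pool.Agent.H534.NW.itBW l E 4 (by norm_num) 1
    refine ⟨r₀, hr₀, fun r hr k κ hk hκ => ?_⟩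
    obtain ⟨c, σm, hc, hσm, hσm2, h1⟩ := hm r hr k κ hk hκ
    obtain ⟨L, h1⟩ := h1 σm hσm le_rfl
    refine ⟨c, σm, hc, hσm, hσm2, L, ?_⟩
    filter_upwards [h1, eventually_ge_atTop 4, Pool.Agent.H534.RT.len_ev (E + 3) r (by omega) (by omega)]
      with x h2 hx2 h3 t hadm ht A hA hAc
    have e : LP (ia 4 t) (ib 4 1 t) x r = AlmostPrimes t ((E + 3) * r) ((x : ℝ) ^ (1 / (r : ℝ))) x := by
      ext y
      unfold LP AlmostPrimes
      rw [mem_filter, mem_filter, mem_Ioc]
      constructor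
      · rintro ⟨⟨hy1, hy2⟩, hy3, hy4⟩
        have hyone : 1 ≤ y := by omega
        have hrough : ∀ i, ∀ q : ℕ, q.Prime → q ∣ T^[t i] y → (x : ℝ) ^ (1 / (r : ℝ)) < q :=
          fun i q hq hd => hy4 i q hq ((T_dvd t y q i).2 hd)
        refine ⟨⟨hy1, hy2⟩, hy3, fun i => ⟨h3 _ (T_pos _ _ hyone) ?_ (hrough i), hrough i⟩⟩
        have h5 := T_le (t i) y hyone
        calc T^[t i] y ≤ 4 ^ t i * (2 * y) := by omega
          _ ≤ x ^ E * (x * x * x) := Nat.mul_le_mul (ht i) (by
              have h6 : 2 * y ≤ 4 * x := by omega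
              have h7 : 4 * x ≤ x * x := Nat.mul_le_mul_right _ hx2
              have h8 : x * x * 1 ≤ x * x * x := Nat.mul_le_mul_left _ (by omega)
              omega)
          _ = x ^ (E + 3) := by ring
      · rintro ⟨hy1, hy2, hy3⟩
        exact ⟨hy1, hy2, fun i q hq hd => (hy3 i).2 q hq ((T_dvd t y q i).1 hd)⟩
    rw [← e] at hA hAc
    have h0 := h2 t (ladm t hadm) ht A hA hAc
    rw [V_eq] at h0
    exact h0
  · obtain ⟨η, hη, B, K, hm⟩ := Pool.Agent.H534.NW.itCW m l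
    refine ⟨η, hη, B, K, fun k E κ hk hκ => ?_⟩
    obtain ⟨c, σm, hc, hσm, hσm2, h1⟩ := hm 4 (by norm_num) 1 k E κ hk hκ
    obtain ⟨L, x₀, h1⟩ := h1 σm hσm le_rfl
    refine ⟨c, σm, hc, hσm, hσm2, L, x₀, fun x hx t hadm hinj ht => ?_⟩
    obtain ⟨P, S, hP1, hP2, hS1, hS2, h2⟩ := h1 x hx t (ladm t hadm) hinj (fun j => (ht j).1)
      (fun j => (ht j).2)
    refine ⟨P, S, hP1, hP2, hS1, fun n hn => ?_, h2⟩
    obtain ⟨h5, h6⟩ := hS2 n hn
    refine ⟨h5, fun u hu => ⟨(h6 u hu).1, fun j q hq hd => ?_⟩⟩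
    exact (h6 u hu).2 j q hq ((T_dvd t _ q j).2 hd)
  · obtain ⟨c, σm, hc, hσm, hσm2, h⟩ := Pool.Agent.H534.NW.linN3d 4 1 (by norm_num) isCoprime_one_right
      (fun h => by norm_num at h) (by norm_num)
      (fun p hp => by
        obtain ⟨n, h1, h2⟩ := ladm (fun _ : Fin 1 => 1) ⟨1, by norm_num, fun _ => by norm_num⟩ p hp
        refine ⟨n, h1, fun h => h2 0 ?_⟩
        rw [T_eq]
        show (p : ℤ) ∣ ((4 * n + 1 : ℕ) : ℤ)
        push_cast at h ⊢
        exact h)
      (fun m => 4 * m + 1) (fun m _ => by push_cast; ring) k hk κ hκ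
    obtain ⟨L, h⟩ := h σm hσm le_rfl
    refine ⟨c, σm, hc, hσm, hσm2, L, ?_⟩
    filter_upwards [h] with x hx A hA hAc
    have e : AlmostPrimes (fun _ : Fin 1 => 1) 3 ((x : ℝ) ^ (1 / (5 : ℝ))) x =
        (Ioc x (2 * x)).filter (Pool.Agent.H534.RT.EP (fun m => 4 * m + 1) 3 5 x) := by
      ext y
      unfold AlmostPrimes
      rw [mem_filter, mem_filter]
      unfold Pool.Agent.H534.RT.EP
      constructor
      · rintro ⟨h1, h2, h3⟩
        obtain ⟨h4, h5⟩ := h3 0
        exact ⟨h1, h2, h4, h5⟩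
      · rintro ⟨h1, h2, h4, h5⟩
        exact ⟨h1, h2, fun _ => ⟨h4, h5⟩⟩
    rw [e] at hA hAc
    exact hx A hA hAc

end Pool.Agent.Results.MP_3df474_nt.EveryShapeOfIterates
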