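import Mathlib
import Pool.Agent.H528.ApJ

set_option autoImplicit false

/-!
# The parity law for the pairs `p, c p + h`, for almost all `h`

For almost all `h ≤ N` (all but `N ^ δ`, `δ < 1`), simultaneously for ALL coefficients `2 ≤ c ≤ (log N) ^ B` and ALL residue
classes `a mod q`, `q ≤ (log N) ^ B`: the numbers `c p + h`, `p` prime, `p ≡ a (mod q)`, that are products of exactly `r`
primes are distributed, for every `r`, as the number `π` of the prime pairs `p, c p + h` dictates: as many as conjectured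
times `π / E` if `r` is odd, and times `2 - π / E` if `r` is even, where `E` is the conjectured value of `π`.

The weight of a product of `r` distinct primes `p₁, …, p_r ≥ N ^ ξ` is the sum of
`∏ (log p_i / log N) ^ (k_i + 1)` over the orderings of the `p_i`.
-/

namespace Pool.Agent.Results.MP_3df474_nt.ParityLawForLinearPairs

open Finset Filter
open Pool.Agent.H387R2.Uni

/-- the sum of `a(p₁) ^ (k₁ + 1) ⋯ a(p_r) ^ (k_r + 1)` over the orderings `p₁, …, p_r` of the set `P` (and `0` if the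
number of the elements of `P` is not the length `r` of the list `k₁, …, k_r`) -/
noncomputable def moment (a : ℕ → ℝ) : List ℕ → Finset ℕ → ℝ
  | [], P => if P = ∅ then 1 else 0
  | k :: l, P => ∑ p ∈ P, a p ^ (k + 1) * moment a l (P.erase p)

open Classical in
/-- the weight of `m`: `0` unless `m` is the product of `r` distinct primes, all at least `N ^ ξ` (`r` is the length of
the list `l = k₁, …, k_r`), and else the sum of the `∏ (log p_i / log N) ^ (k_i + 1)` over the orderings of them -/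
noncomputable def weight (N : ℕ) (ξ : ℝ) (l : List ℕ) (m : ℕ) : ℝ :=
  if Squarefree m ∧ ∀ q : ℕ, q.Prime → q ∣ m → (N : ℝ) ^ ξ ≤ q then
    moment (fun p => Real.log p / Real.log N) l m.primeFactors else 0

/-- the constant `k₁! ⋯ k_r! / (r - 1 + k₁ + ⋯ + k_r)!`: the integers `m ≤ N` have total weight about this constant times
`N / log N` -/
noncomputable def coeff (l : List ℕ) : ℝ := ((l.map Nat.factorial).prod : ℝ) / ((l.length - 1 + l.sum).factorial : ℝ)

/-- the primes `p` with `c p ≤ N` and `p ≡ a (mod q)` -/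
def primesAP (N c a q : ℕ) : Finset ℕ := (Icc 1 (N / c)).filter (fun p => p.Prime ∧ p ≡ a [MOD q])

/-- the total weight of the numbers `c * p + h`, `p` prime, `c p ≤ N`, `p ≡ a (mod q)` -/
noncomputable def mass (N : ℕ) (ξ : ℝ) (l : List ℕ) (c a q h : ℕ) : ℝ := ∑ p ∈ primesAP N c a q, weight N ξ l (c * p + h)

/-- the number of the primes `p` with `c p ≤ N`, `p ≡ a (mod q)` and `c * p + h` prime -/
noncomputable def pairs (N c a q h : ℕ) : ℝ := (((primesAP N c a q).filter (fun p => (c * p + h).Prime)).card : ℝ)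

/-- `|φ_d(q)|`: the number of the classes `α (mod q)` with `(α, q) = (α + d, q) = 1` -/
noncomputable def phi (d q : ℕ) : ℝ := q * ∏ p ∈ q.primeFactors, (1 - (if p ∣ d then 1 else 2) / (p : ℝ))

/-- the conjectured number of the primes `p` with `c p ≤ N`, `p ≡ a (mod q)` and `c * p + h` prime -/
noncomputable def expectedPairs (N c h q : ℕ) : ℝ := CT {0, c * h} / phi (c * h) q * (N / c / Real.log N ^ 2)

open Pool.Agent.Y822 Pool.Agent.Y822.Par3
open Pool.Agent.H373R2.T7 (Vz)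
open Pool.Agent.H528.UG (wM lg pif law2)
open Pool.Agent.H528.Mn (ac nn)

lemma ro_iff' {ξ : ℝ} {N m : ℕ} (hN : 1 ≤ N) :
    (∀ q : ℕ, q.Prime → q ∣ m → (N : ℝ) ^ ξ ≤ q) ↔ Ro (zN ξ N) m := by
  constructor
  · intro h1 q hq hqz hqd
    have h3 := zN_lt' (ε₁ := ξ) hN (h1 q hq hqd)
    omega
  · intro h1 q hq hqd
    by_contra h2
    push Not at h2
    exact h1 q hq (le_zN h2) hqd

lemma moment_eq (a : ℕ → ℝ) (l : List ℕ) : ∀ P, moment a l P = Pool.Agent.H528.Mo.M a l P := by
  induction l with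
  | nil =>
    intro P
    unfold moment Pool.Agent.H528.Mo.M
    rfl
  | cons k l ih =>
    intro P
    unfold moment Pool.Agent.H528.Mo.M
    exact sum_congr rfl fun p _ => by rw [ih]

lemma moment_nonneg {a : ℕ → ℝ} (ha : ∀ p, 0 ≤ a p) (l : List ℕ) (P : Finset ℕ) : 0 ≤ moment a l P := by
  rw [moment_eq]
  exact Pool.Agent.H528.Mo.M_nonneg ha l P

lemma weight_eq {N : ℕ} {ξ : ℝ} (hN : 1 ≤ N) (l : List ℕ) (m : ℕ) : weight N ξ l m = wM N (zN ξ N) l m := by
  unfold weight wM ro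
  rw [ro_iff' hN]
  by_cases h1 : Squarefree m
  · by_cases h2 : Ro (zN ξ N) m
    · rw [if_pos ⟨h1, h2⟩, if_pos h2, if_pos h1, one_mul, moment_eq]
      rfl
    · rw [if_neg (fun h => h2 h.2), if_neg h2, zero_mul]
  · rw [if_neg (fun h => h1 h.1), if_neg h1, mul_zero]

lemma weight_nonneg {N : ℕ} {ξ : ℝ} (l : List ℕ) (m : ℕ) : 0 ≤ weight N ξ l m := by
  unfold weight
  split_ifs
  · apply moment_nonneg
    intro p
    exact div_nonneg (Real.log_natCast_nonneg p) (Real.log_natCast_nonneg N)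
  · exact le_rfl

lemma coeff_eq (k : ℕ) (l : List ℕ) : coeff (k :: l) = ac k l := by
  unfold coeff ac nn Pool.Agent.H528.Mo.fct
  rw [List.length_cons, Nat.add_sub_cancel]

open Classical in
lemma sum_AP {N c q a : ℕ} (hc : 1 ≤ c) (F : ℕ → ℝ) :
    ∑ x ∈ Icc 1 N, Pool.Agent.H528.Ap.fB c q a x * F x = ∑ p ∈ primesAP N c a q, F (c * p) := by
  rw [Pool.Agent.H528.Ap.sum_fB hc F]
  unfold primesAP
  congr!

lemma mass_eq {N : ℕ} {ξ : ℝ} (hN : 1 ≤ N) (l : List ℕ) {c a q h : ℕ} (hc : 1 ≤ c) :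
    Pool.Agent.H528.Ap.TB N (zN ξ N) c q a h l = mass N ξ l c a q h := by
  unfold Pool.Agent.H528.Ap.TB mass
  rw [sum_AP hc (fun x => wM N (zN ξ N) l (x + h))]
  exact sum_congr rfl fun p _ => (weight_eq hN l _).symm

lemma pairs_eq {N c a q h : ℕ} (hc : 1 ≤ c) :
    pif N (Pool.Agent.H528.Ap.fB c q a) h = pairs N c a q h := by
  unfold pif pairs
  rw [sum_AP hc (fun x => if (x + h).Prime then 1 else 0), card_eq_sum_ones, Nat.cast_sum, sum_filter]
  refine sum_congr rfl fun p _ => ?_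
  split_ifs <;> simp

lemma mass_nonneg {N : ℕ} {ξ : ℝ} (l : List ℕ) (c a q h : ℕ) : 0 ≤ mass N ξ l c a q h :=
  sum_nonneg fun _ _ => weight_nonneg l _

lemma expectedPairs_eq (N c h q : ℕ) : expectedPairs N c h q = Pool.Agent.H528.Ap.EB N c h q := rfl

/-- the list as a pair -/
def toPair (l : List ℕ) : ℕ × List ℕ := (l.headI, l.tail)

lemma toPair_eq {l : List ℕ} (hl : l ≠ []) : (toPair l).1 :: (toPair l).2 = l := by
  cases l with
  | nil => exact absurd rfl hl
  | cons k l => rfl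

lemma toPair_par {l : List ℕ} (hl : l ≠ []) : Even (toPair l).2.length ↔ Odd l.length := by
  cases l with
  | nil => exact absurd rfl hl
  | cons k l =>
    show Even l.length ↔ Odd (k :: l).length
    rw [List.length_cons, Nat.odd_add_one, Nat.not_odd_iff_even]

open Classical in
theorem result :
    -- the conjectured constants are convergent products, positive for even `d`
    (∀ d : ℕ, HasProd (fun p : Nat.Primes => locT {0, d} p) (CT {0, d}) ∧ (Even d → 1 ≤ d → 0 < CT {0, d})) ∧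
    ∀ 𝓛 : Finset (List ℕ), (∀ l ∈ 𝓛, l ≠ []) → ∀ ε : ℝ, 0 < ε → ∀ B : ℕ, ∃ δ ξ : ℝ, 0 < δ ∧ δ < 1 ∧ 0 < ξ ∧ ξ ≤ ε ∧
      ∃ N₀ : ℕ, ∀ N : ℕ, N₀ ≤ N → ∃ 𝓔 : Finset ℕ, (𝓔.card : ℝ) ≤ (N : ℝ) ^ δ ∧
        ∀ h : ℕ, 1 ≤ h → h ≤ N → h ∉ 𝓔 →
        ∀ c q a : ℕ, 2 ≤ c → (c : ℝ) ≤ Real.log N ^ B → 1 ≤ q → (q : ℝ) ≤ Real.log N ^ B →
          Nat.Coprime a q → Nat.Coprime c h → Nat.Coprime q (c * a + h) → Even (c * h) →
          (∀ l ∈ 𝓛, |mass N ξ l c a q h - coeff l * (if Odd l.length then pairs N c a q h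
              else 2 * expectedPairs N c h q - pairs N c a q h)| ≤ ε * expectedPairs N c h q) ∧
          pairs N c a q h ≤ (2 + ε) * expectedPairs N c h q := by
  have habs : ∀ (δ : ℝ) (B : ℕ), δ < 1 → ∃ N₁ : ℕ, ∀ N : ℕ, N₁ ≤ N →
      (N : ℝ) ^ δ * Real.log N ^ B ≤ (N : ℝ) ^ ((1 + δ) / 2) := by
    intro δ B hδ
    have e2 := ev_logN (ev_pow_exp B ((1 - δ) / 2) 1 (by linarith))
    obtain ⟨N₀, hN₀⟩ := eventually_atTop.1 e2
    refine ⟨max N₀ 1, fun N hN => ?_⟩
    have h2 := hN₀ N ((le_max_left _ _).trans hN)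
    have hN1 : 1 ≤ N := (le_max_right _ _).trans hN
    have hN0 : (0 : ℝ) < N := by exact_mod_cast hN1
    rw [one_mul] at h2
    have e3 : (N : ℝ) ^ ((1 + δ) / 2) = (N : ℝ) ^ δ * Real.exp ((1 - δ) / 2 * Real.log N) := by
      rw [mul_comm ((1 - δ) / 2), ← Real.rpow_def_of_pos hN0, ← Real.rpow_add hN0]
      congr 1
      ring
    rw [e3]
    exact mul_le_mul_of_nonneg_left h2 (by positivity)
  refine ⟨fun d => ⟨CT_hasProd _, fun hd _ => ?_⟩, fun 𝓛 h𝓛 ε hε B => ?_⟩
  · rw [← CT_en]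
    apply Pool.Agent.H386R2.HL.singularSeries_pos (en_inj _)
    intro p hp
    rw [nu_en]
    exact Pool.Agent.H528.Ap.adm_pair hd p hp
  · obtain ⟨δ, hδ1, hδ2, ξ, hξ, hξ8, hξε, C, LAW⟩ := Pool.Agent.H528.Ap.sl_law ((insert [0, 0] 𝓛).image toPair) ε hε B
    obtain ⟨N₁, hN₁⟩ := habs δ C hδ2
    obtain ⟨N₀, hN₀⟩ := eventually_atTop.1 LAW
    refine ⟨(1 + δ) / 2, ξ, by linarith, by linarith, hξ, hξε, max (max N₀ N₁) 1, fun N hN => ?_⟩
    have h1 := hN₀ N ((le_max_left _ _).trans ((le_max_left _ _).trans hN))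
    have h2 := hN₁ N ((le_max_right _ _).trans ((le_max_left _ _).trans hN))
    have hN1 : 1 ≤ N := (le_max_right _ _).trans hN
    refine ⟨(Icc 1 N).filter (fun h => ∃ c q a : ℕ, (1 ≤ c ∧ (c : ℝ) ≤ Real.log N ^ B) ∧
      (1 ≤ q ∧ (q : ℝ) ≤ Real.log N ^ B) ∧
      Nat.Coprime a q ∧ Nat.Coprime c h ∧ Nat.Coprime q (c * a + h) ∧ Even (c * h) ∧
      ¬ ∀ l ∈ (insert [0, 0] 𝓛).image toPair, |Pool.Agent.H528.Ap.TB N (zN ξ N) c q a h (l.1 :: l.2) -
          ac l.1 l.2 * (if Even l.2.length then pif N (Pool.Agent.H528.Ap.fB c q a) h else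
            2 * Pool.Agent.H528.Ap.EB N c h q - pif N (Pool.Agent.H528.Ap.fB c q a) h)| ≤
        ε * Pool.Agent.H528.Ap.EB N c h q), (h1 _ fun t ht => ?_).trans h2, ?_⟩
    · rw [mem_filter, mem_Icc] at ht
      exact ht
    · intro h hv1 hv2 hvE c q a hc' hcB hq hqB ha hcv hav hev
      have hc : 1 ≤ c := by omega
      have hall : ∀ l ∈ insert [0, 0] 𝓛, |mass N ξ l c a q h - coeff l *
          (if Odd l.length then pairs N c a q h
            else 2 * expectedPairs N c h q - pairs N c a q h)| ≤ ε * expectedPairs N c h q := by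
        intro l hl
        have hl0 : l ≠ [] := by
          rw [mem_insert] at hl
          rcases hl with rfl | hl
          · simp
          · exact h𝓛 l hl
        by_contra hcon
        apply hvE
        rw [mem_filter, mem_Icc]
        refine ⟨⟨hv1, hv2⟩, c, q, a, ⟨hc, hcB⟩, ⟨hq, hqB⟩, ha, hcv, hav, hev, fun hgood => hcon ?_⟩
        have h3 := hgood (toPair l) (mem_image_of_mem _ hl)
        rw [toPair_eq hl0, mass_eq hN1 l hc, pairs_eq hc, ← coeff_eq, toPair_eq hl0, ← expectedPairs_eq] at h3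
        have h4 := toPair_par hl0
        by_cases h5 : Odd l.length
        · rw [if_pos (h4.2 h5)] at h3
          rw [if_pos h5]
          exact h3
        · rw [if_neg (fun h => h5 (h4.1 h))] at h3
          rw [if_neg h5]
          exact h3
      refine ⟨fun l hl => hall l (mem_insert_of_mem hl), ?_⟩
      have h3 := hall [0, 0] (mem_insert_self _ _)
      have h4 : coeff [0, 0] = 1 := by
        unfold coeff
        simp
      rw [h4, one_mul, if_neg (by decide)] at h3
      have h5 := (abs_le.1 h3).2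
      have h6 := mass_nonneg (N := N) (ξ := ξ) [0, 0] c a q h
      linarith

end Pool.Agent.Results.MP_3df474_nt.ParityLawForLinearPairs
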