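import Pool.Agent.H561.E3.K11

/-!
# A prime `p` and products of exactly two primes `a p + h_1, …, a p + h_k`

Let `a ≥ 2` (`a = 4` in the problem) and `k ≥ 1`. For every `ε > 0` there is `η > 0` such that for all `A` the following holds for
all large `H` and all `D`. In every box `[b_1, b_1 + H) × … × [b_k, b_k + H)` contained in `[-D, D] ^ k`, all the vectors `h` of
different nonzero integers for which no prime `q` divides `n (a n + h_1) ⋯ (a n + h_k)` for all `n`, except at most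
`H ^ k / (log H) ^ A`, have the following property: for ALL `x` with `D (log x) ^ (k + 2) ≤ x ≤ exp ((log H) ^ (1 + η))` the number
of the primes `p ≤ x` for which all of `a p + h_1, …, a p + h_k` are products of two primes is

`∏_q (1 - 1 / q) ^ (-(k + 1)) (1 - ω(q) / q) * x * (log log x) ^ k / (log x) ^ (k + 1)`

up to a relative error of at most `ε`, where `ω(q)` is the number of the `n` modulo `q` with `n (a n + h_1) ⋯ (a n + h_k) ≡ 0`.

Proof: `Pool.Agent.H561.E3`.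
-/

set_option autoImplicit false

namespace Pool.Agent.Results.MP_3df474_nt.SemiprimeMultiples

open Finset Filter

/-- `m` is the product of two primes -/
def Semiprime (m : ℤ) : Prop := ∃ p q : ℕ, p.Prime ∧ q.Prime ∧ m = p * q

open Classical in
/-- the number of the primes `p ≤ x` such that all of `a p + h_1, …, a p + h_k` are products of two primes -/
noncomputable def count {k : ℕ} (a : ℕ) (h : Fin k → ℤ) (x : ℕ) : ℕ :=
  ((Icc 1 x).filter (fun p : ℕ => p.Prime ∧ ∀ i, Semiprime (a * p + h i))).card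

open Classical in
/-- the number of the `n` modulo `q` with `n (a n + h_1) ⋯ (a n + h_k) ≡ 0` -/
noncomputable def ω {k : ℕ} (a : ℕ) (h : Fin k → ℤ) (q : ℕ) : ℕ :=
  ((range q).filter (fun n : ℕ => (q : ℤ) ∣ (n : ℤ) * ∏ i, ((a : ℤ) * n + h i))).card

/-- the singular series -/
noncomputable def singularSeries {k : ℕ} (a : ℕ) (h : Fin k → ℤ) : ℝ :=
  ∏' q : Nat.Primes, (1 - 1 / ((q : ℕ) : ℝ))⁻¹ ^ (k + 1) * (1 - (ω a h q : ℝ) / ((q : ℕ) : ℝ))

/-- the expected number -/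
noncomputable def expected {k : ℕ} (a : ℕ) (h : Fin k → ℤ) (x : ℕ) : ℝ :=
  singularSeries a h * x * Real.log (Real.log x) ^ k / Real.log x ^ (k + 1)

/-- the `h_i` are different and not zero, and no prime divides `n (a n + h_1) ⋯ (a n + h_k)` for all `n` -/
def Admissible {k : ℕ} (a : ℕ) (h : Fin k → ℤ) : Prop :=
  (∀ i, h i ≠ 0) ∧ Function.Injective h ∧ ∀ q : ℕ, q.Prime → ∃ n : ℕ, ¬ (q : ℤ) ∣ (n : ℤ) * ∏ i, ((a : ℤ) * n + h i)

open Classical in
/-- the admissible `h` of the box `[b_1, b_1 + H) × … × [b_k, b_k + H)` for which the formula fails, up to a relative error of at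
most `ε`, for some `x` with `D ≤ x`, `D (log x) ^ (k + 2) ≤ x` and `log x ≤ L` -/
noncomputable def exceptional {k : ℕ} (a : ℕ) (ε L : ℝ) (D H : ℕ) (b : Fin k → ℤ) : Finset (Fin k → ℤ) :=
  (Fintype.piFinset (fun i => Ico (b i) (b i + H))).filter
    (fun h => Admissible a h ∧ ¬ ∀ x : ℕ, D ≤ x → D * Real.log x ^ (k + 2) ≤ x → Real.log x ≤ L →
      |(count a h x : ℝ) - expected a h x| ≤ ε * expected a h x)

lemma ω_eq {k : ℕ} (a : ℕ) (h : Fin k → ℤ) (q : ℕ) : ω a h q = Pool.Agent.H561.E2.omg (fun _ => (a : ℤ)) h q := by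
  classical
  unfold ω Pool.Agent.H561.E2.omg
  congr 1

lemma ser_eq {k : ℕ} (a : ℕ) (h : Fin k → ℤ) : singularSeries a h = Pool.Agent.H561.E2.singT (fun _ => (a : ℤ)) h := by
  rw [← Pool.Agent.H561.E2.singD_eq]
  unfold singularSeries Pool.Agent.H561.E2.singD
  apply tprod_congr
  intro q
  rw [ω_eq]

lemma omg_lt {s : ℕ} (a b : Fin s → ℤ) (p : ℕ) (hp : p.Prime) (h : ∃ n : ℕ, ¬ (p : ℤ) ∣ (n : ℤ) * ∏ i, (a i * (n : ℤ) + b i)) :
    Pool.Agent.H561.E2.omg a b p < p := by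
  classical
  obtain ⟨n, hn⟩ := h
  have h1 : ¬ (p : ℤ) ∣ ((n % p : ℕ) : ℤ) * ∏ i, (a i * ((n % p : ℕ) : ℤ) + b i) := by
    intro h2
    apply hn
    have h3 : (n : ℤ) ≡ ((n % p : ℕ) : ℤ) [ZMOD p] := by
      rw [Int.natCast_mod]
      exact (Int.mod_modEq _ _).symm
    have h4 : (n : ℤ) * ∏ i, (a i * (n : ℤ) + b i) ≡ ((n % p : ℕ) : ℤ) * ∏ i, (a i * ((n % p : ℕ) : ℤ) + b i) [ZMOD p] := by
      apply Int.ModEq.mul h3
      have h5 : ∀ T : Finset (Fin s), ∏ i ∈ T, (a i * (n : ℤ) + b i) ≡ ∏ i ∈ T, (a i * ((n % p : ℕ) : ℤ) + b i) [ZMOD p] := by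
        intro T
        induction T using Finset.induction_on with
        | empty => simp
        | insert x T hx ih =>
          rw [prod_insert hx, prod_insert hx]
          exact Int.ModEq.mul ((h3.mul_left _).add_right _) ih
      exact h5 univ
    exact (Int.ModEq.dvd_iff h4).2 h2
  have h2 : (range p).filter (fun n : ℕ => (p : ℤ) ∣ (n : ℤ) * ∏ i, (a i * (n : ℤ) + b i)) ⊂ range p := by
    rw [Finset.ssubset_iff_of_subset (filter_subset _ _)]
    refine ⟨n % p, mem_range.2 (Nat.mod_lt _ hp.pos), fun h3 => ?_⟩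
    rw [mem_filter] at h3
    exact h1 h3.2
  have h3 := card_lt_card h2
  rw [card_range] at h3
  unfold Pool.Agent.H561.E2.omg
  convert h3

lemma adm_of {k : ℕ} (a : ℕ) (ha : 2 ≤ a) (h : Fin k → ℤ) (hh : Admissible a h) :
    Pool.Agent.H561.E2.NDeg (fun _ => (a : ℤ)) h ∧ Pool.Agent.H561.E2.Adm (fun _ => (a : ℤ)) h := by
  obtain ⟨h2, h3, h4⟩ := hh
  refine ⟨⟨h2, fun i j hij h6 => ?_⟩, ?_⟩
  · unfold Pool.Agent.H561.E2.DD at h6
    apply hij
    apply h3
    have ha0 : (a : ℤ) ≠ 0 := by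
      have : (2 : ℤ) ≤ a := by exact_mod_cast ha
      omega
    exact mul_left_cancel₀ ha0 (by linarith)
  · rw [Pool.Agent.H561.E2.adm_iff]
    intro q hq
    exact omg_lt _ _ q hq (h4 q hq)

lemma cnt_eq {k : ℕ} (a : ℕ) (h : Fin k → ℤ) (x : ℕ) : count a h x = Pool.Agent.H561.E3.CE (fun _ => (a : ℤ)) h 0 x := by
  classical
  unfold count Pool.Agent.H561.E3.CE
  congr 1

/-- **A prime `p` and `k` products of two primes `a p + h_i`, for almost all `h` and all `x` at once.** -/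
theorem result (a : ℕ) (ha : 2 ≤ a) (k : ℕ) (hk : 0 < k) (ε : ℝ) (hε : 0 < ε) : ∃ η : ℝ, 0 < η ∧ ∀ A : ℕ, ∃ H₀ : ℕ,
    ∀ H : ℕ, H₀ ≤ H → ∀ (D : ℕ) (b : Fin k → ℤ), (∀ i, |b i| + H ≤ D) →
      ((exceptional a ε (Real.log H ^ (1 + η)) D H b).card : ℝ) ≤ (H : ℝ) ^ k / Real.log H ^ A := by
  classical
  obtain ⟨η, hη0, _, hT⟩ := Pool.Agent.H561.E3.e2V k hk (fun _ => (a : ℤ)) (fun _ => by exact_mod_cast (by omega : 1 ≤ a)) ε hε
  refine ⟨η, hη0, fun A => ?_⟩
  obtain ⟨H₀, hT⟩ := hT A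
  refine ⟨H₀, fun H hH D b hb => ?_⟩
  refine le_trans ?_ (hT H hH D b hb)
  have hsub : exceptional a ε (Real.log H ^ (1 + η)) D H b ⊆
      (Fintype.piFinset (fun i : Fin k => Ico (b i) (b i + H))).filter (fun h =>
      Pool.Agent.H561.E2.NDeg (fun _ => (a : ℤ)) h ∧ Pool.Agent.H561.E2.Adm (fun _ => (a : ℤ)) h ∧
      ¬ ∀ x : ℕ, D ≤ x → D * (Real.log x) ^ (k + 2) ≤ x → Real.log x ≤ (Real.log H) ^ (1 + η) →
        |(Pool.Agent.H561.E3.CE (fun _ => (a : ℤ)) h 0 x : ℝ) -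
          Pool.Agent.H561.E2.singT (fun _ => (a : ℤ)) h * x * Real.log (Real.log x) ^ k / (Real.log x) ^ (k + 1)| ≤
        ε * (Pool.Agent.H561.E2.singT (fun _ => (a : ℤ)) h * x * Real.log (Real.log x) ^ k / (Real.log x) ^ (k + 1))) := by
    intro h hh
    unfold exceptional at hh
    rw [mem_filter] at hh
    rw [mem_filter]
    obtain ⟨h1, h2, h3⟩ := hh
    refine ⟨h1, (adm_of a ha h h2).1, (adm_of a ha h h2).2, fun h4 => h3 fun x x1 x2 x3 => ?_⟩
    have h5 := h4 x x1 x2 x3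
    rw [cnt_eq]
    unfold expected
    rw [ser_eq]
    exact h5
  exact_mod_cast card_le_card hsub

end Pool.Agent.Results.MP_3df474_nt.SemiprimeMultiples
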